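import Mathlib
import Pool.Agent.H211.HY.Stm1
import Pool.Graph.R_seed8.H790R3.RB.Basic
import Pool.Graph.R_seed8.Helper540.Holo

/-!
# Targets everywhere (helper274, for helper211)
-/

set_option autoImplicit false

open Topology Filter Metric Set

namespace Pool.Agent.H274.HY211

open Pool.Agent.H790R3.RB Pool.Agent.H211.HY

/-- partial derivative of a component with respect to the first variable -/
noncomputable def pu {d : ℕ} (x : CV d) (i : Fin 2) (p : ℂ × ℂ) : ℂ :=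
  ∑ j : Fin (d + 1), x (i, j) * (((j : ℕ) : ℂ) * p.1 ^ ((j : ℕ) - 1) * p.2 ^ (d - (j : ℕ)))

/-- partial derivative of a component with respect to the second variable -/
noncomputable def pv {d : ℕ} (x : CV d) (i : Fin 2) (p : ℂ × ℂ) : ℂ :=
  ∑ j : Fin (d + 1), x (i, j) * (((d - (j : ℕ) : ℕ) : ℂ) * p.1 ^ (j : ℕ) * p.2 ^ (d - (j : ℕ) - 1))

/-- a component -/
noncomputable def cp {d : ℕ} (x : CV d) (i : Fin 2) (p : ℂ × ℂ) : ℂ :=
  ∑ j : Fin (d + 1), x (i, j) * (p.1 ^ (j : ℕ) * p.2 ^ (d - (j : ℕ)))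

theorem hF_eq {d : ℕ} (x : CV d) (p : ℂ × ℂ) : hF x p = (cp x 0 p, cp x 1 p) := rfl

theorem wr_eq {d : ℕ} (x : CV d) (p : ℂ × ℂ) :
    wr x p = pu x 0 p * pv x 1 p - pv x 0 p * pu x 1 p := rfl

theorem nat_mul_pow (n : ℕ) (z : ℂ) : z * ((n : ℂ) * z ^ (n - 1)) = (n : ℂ) * z ^ n := by
  rcases n with _ | n
  · simp
  · rw [Nat.add_sub_cancel, pow_succ]; ring

theorem euler {d : ℕ} (x : CV d) (i : Fin 2) (p : ℂ × ℂ) :
    p.1 * pu x i p + p.2 * pv x i p = (d : ℂ) * cp x i p := by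
  unfold pu pv cp
  rw [Finset.mul_sum, Finset.mul_sum, Finset.mul_sum, ← Finset.sum_add_distrib]
  refine Finset.sum_congr rfl fun j _ => ?_
  have hj : (j : ℕ) + (d - (j : ℕ)) = d := by have := j.2; omega
  have hc : ((j : ℕ) : ℂ) + ((d - (j : ℕ) : ℕ) : ℂ) = (d : ℂ) := by exact_mod_cast hj
  have h1 := nat_mul_pow (j : ℕ) p.1
  have h2 := nat_mul_pow (d - (j : ℕ)) p.2
  calc p.1 * (x (i, j) * (((j : ℕ) : ℂ) * p.1 ^ ((j : ℕ) - 1) * p.2 ^ (d - (j : ℕ)))) +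
        p.2 * (x (i, j) * (((d - (j : ℕ) : ℕ) : ℂ) * p.1 ^ (j : ℕ) * p.2 ^ (d - (j : ℕ) - 1)))
      = x (i, j) * ((p.1 * (((j : ℕ) : ℂ) * p.1 ^ ((j : ℕ) - 1))) * p.2 ^ (d - (j : ℕ)) +
        p.1 ^ (j : ℕ) * (p.2 * (((d - (j : ℕ) : ℕ) : ℂ) * p.2 ^ (d - (j : ℕ) - 1)))) := by ring
    _ = x (i, j) * ((((j : ℕ) : ℂ) * p.1 ^ (j : ℕ)) * p.2 ^ (d - (j : ℕ)) +
        p.1 ^ (j : ℕ) * (((d - (j : ℕ) : ℕ) : ℂ) * p.2 ^ (d - (j : ℕ)))) := by rw [h1, h2]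
    _ = (((j : ℕ) : ℂ) + ((d - (j : ℕ) : ℕ) : ℂ)) *
        (x (i, j) * (p.1 ^ (j : ℕ) * p.2 ^ (d - (j : ℕ)))) := by ring
    _ = _ := by rw [hc]

theorem pu_smul {d : ℕ} (x : CV d) (i : Fin 2) (a : ℂ) (p : ℂ × ℂ) :
    pu x i (a • p) = a ^ (d - 1) * pu x i p := by
  unfold pu
  rw [Finset.mul_sum]
  refine Finset.sum_congr rfl fun j _ => ?_
  simp only [Prod.smul_fst, Prod.smul_snd, smul_eq_mul]
  rcases Nat.eq_zero_or_pos (j : ℕ) with h | h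
  · rw [h]; simp
  · have hj : ((j : ℕ) - 1) + (d - (j : ℕ)) = d - 1 := by have := j.2; omega
    rw [mul_pow, mul_pow, ← hj, pow_add]; ring

theorem pv_smul {d : ℕ} (x : CV d) (i : Fin 2) (a : ℂ) (p : ℂ × ℂ) :
    pv x i (a • p) = a ^ (d - 1) * pv x i p := by
  unfold pv
  rw [Finset.mul_sum]
  refine Finset.sum_congr rfl fun j _ => ?_
  simp only [Prod.smul_fst, Prod.smul_snd, smul_eq_mul]
  rcases Nat.eq_zero_or_pos (d - (j : ℕ)) with h | h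
  · rw [h]; simp
  · have hj : (j : ℕ) + (d - (j : ℕ) - 1) = d - 1 := by have := j.2; omega
    rw [mul_pow, mul_pow, ← hj, pow_add]; ring

theorem wr_smul {d : ℕ} (x : CV d) (a : ℂ) (p : ℂ × ℂ) :
    wr x (a • p) = (a ^ (d - 1)) ^ 2 * wr x p := by
  rw [wr_eq, wr_eq, pu_smul, pu_smul, pv_smul, pv_smul]; ring

theorem fst_hasDerivAt {g : ℂ → ℂ × ℂ} {g' : ℂ × ℂ} {w : ℂ} (hg : HasDerivAt g g' w) :
    HasDerivAt (fun w => (g w).1) g'.1 w :=
  (hasFDerivAt_fst (𝕜 := ℂ) (p := g w)).comp_hasDerivAt w hg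

theorem snd_hasDerivAt {g : ℂ → ℂ × ℂ} {g' : ℂ × ℂ} {w : ℂ} (hg : HasDerivAt g g' w) :
    HasDerivAt (fun w => (g w).2) g'.2 w :=
  (hasFDerivAt_snd (𝕜 := ℂ) (p := g w)).comp_hasDerivAt w hg

theorem cp_hasDerivAt {d : ℕ} (x : CV d) (i : Fin 2) {g : ℂ → ℂ × ℂ} {g' : ℂ × ℂ} {w : ℂ}
    (hg : HasDerivAt g g' w) :
    HasDerivAt (fun w => cp x i (g w)) (g'.1 * pu x i (g w) + g'.2 * pv x i (g w)) w := by
  have h1 := fst_hasDerivAt hg
  have h2 := snd_hasDerivAt hg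
  have h3 : HasDerivAt (fun w => ∑ j : Fin (d + 1), x (i, j) * ((g w).1 ^ (j : ℕ) *
      (g w).2 ^ (d - (j : ℕ)))) (∑ j : Fin (d + 1), x (i, j) *
      ((((j : ℕ) : ℂ) * (g w).1 ^ ((j : ℕ) - 1) * g'.1) * (g w).2 ^ (d - (j : ℕ)) +
        (g w).1 ^ (j : ℕ) * (((d - (j : ℕ) : ℕ) : ℂ) * (g w).2 ^ (d - (j : ℕ) - 1) * g'.2))) w := by
    refine HasDerivAt.fun_sum fun j _ => ?_
    exact ((h1.fun_pow (j : ℕ)).fun_mul (h2.fun_pow (d - (j : ℕ)))).const_mul _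
  have h4 : (∑ j : Fin (d + 1), x (i, j) *
      ((((j : ℕ) : ℂ) * (g w).1 ^ ((j : ℕ) - 1) * g'.1) * (g w).2 ^ (d - (j : ℕ)) +
        (g w).1 ^ (j : ℕ) * (((d - (j : ℕ) : ℕ) : ℂ) * (g w).2 ^ (d - (j : ℕ) - 1) * g'.2))) =
      g'.1 * pu x i (g w) + g'.2 * pv x i (g w) := by
    unfold pu pv
    rw [Finset.mul_sum, Finset.mul_sum, ← Finset.sum_add_distrib]
    refine Finset.sum_congr rfl fun j _ => ?_
    ring
  rw [h4] at h3
  exact h3

theorem iter_deriv {d : ℕ} (x : CV d) {g : ℂ → ℂ × ℂ} {g' : ℂ × ℂ} {w : ℂ}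
    (hg : HasDerivAt g g' w) (n : ℕ) :
    ∃ D : ℂ × ℂ, HasDerivAt (fun w => (hF x)^[n] (g w)) D w ∧
      (d : ℂ) ^ n * cr D ((hF x)^[n] (g w)) =
        (∏ j ∈ Finset.range n, wr x ((hF x)^[j] (g w))) * cr g' (g w) := by
  induction n with
  | zero => exact ⟨g', by simpa using hg, by simp⟩
  | succ n ih =>
    obtain ⟨D, hD, he⟩ := ih
    set y := (hF x)^[n] (g w) with hy
    refine ⟨(D.1 * pu x 0 y + D.2 * pv x 0 y, D.1 * pu x 1 y + D.2 * pv x 1 y), ?_, ?_⟩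
    · have h0 := cp_hasDerivAt x 0 hD
      have h1 := cp_hasDerivAt x 1 hD
      have h2 := h0.prodMk h1
      have h3 : (fun w => (hF x)^[n + 1] (g w)) = fun w =>
          (cp x 0 ((hF x)^[n] (g w)), cp x 1 ((hF x)^[n] (g w))) := by
        funext w
        rw [Function.iterate_succ_apply', hF_eq]
      rw [h3]
      exact h2
    · rw [Function.iterate_succ_apply', ← hy, Finset.prod_range_succ, ← hy, hF_eq]
      have e0 := euler x 0 y
      have e1 := euler x 1 y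
      have key : (d : ℂ) * cr (D.1 * pu x 0 y + D.2 * pv x 0 y, D.1 * pu x 1 y + D.2 * pv x 1 y)
          (cp x 0 y, cp x 1 y) = wr x y * cr D y := by
        rw [wr_eq]
        unfold cr
        simp only
        linear_combination (-(D.1 * pu x 0 y + D.2 * pv x 0 y)) * e1 +
          (D.1 * pu x 1 y + D.2 * pv x 1 y) * e0
      calc (d : ℂ) ^ (n + 1) * cr (D.1 * pu x 0 y + D.2 * pv x 0 y,
            D.1 * pu x 1 y + D.2 * pv x 1 y) (cp x 0 y, cp x 1 y)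
          = (d : ℂ) ^ n * ((d : ℂ) * cr (D.1 * pu x 0 y + D.2 * pv x 0 y,
            D.1 * pu x 1 y + D.2 * pv x 1 y) (cp x 0 y, cp x 1 y)) := by rw [pow_succ]; ring
        _ = wr x y * ((d : ℂ) ^ n * cr D y) := by rw [key]; ring
        _ = _ := by rw [he]; ring

theorem iot_hasDerivAt (τ : Bool) (w : ℂ) :
    HasDerivAt (iot τ) (if τ then ((1 : ℂ), (0 : ℂ)) else (0, 1)) w := by
  cases τ with
  | true =>
    have h : HasDerivAt (fun z : ℂ => (z, (1 : ℂ))) ((1 : ℂ), (0 : ℂ)) w :=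
      (hasDerivAt_id w).prodMk (hasDerivAt_const w (1 : ℂ))
    have e : iot true = fun z : ℂ => (z, (1 : ℂ)) := by funext z; simp [iot]
    rw [e]; simpa using h
  | false =>
    have h : HasDerivAt (fun z : ℂ => ((1 : ℂ), z)) ((0 : ℂ), (1 : ℂ)) w :=
      (hasDerivAt_const w (1 : ℂ)).prodMk (hasDerivAt_id w)
    have e : iot false = fun z : ℂ => ((1 : ℂ), z) := by funext z; simp [iot]
    rw [e]; simpa using h

theorem cr_iot (τ : Bool) (w : ℂ) :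
    cr (if τ then ((1 : ℂ), (0 : ℂ)) else (0, 1)) (iot τ w) ≠ 0 := by
  cases τ <;> simp [iot, cr]

theorem iot_ne (τ : Bool) (w : ℂ) : iot τ w ≠ 0 := by
  cases τ <;> simp [iot, Prod.ext_iff]

/-! ### The implicit function -/

theorem ift {d k : ℕ} {x₀ : CV d} {c₀ : Fin k → ℂ} {m : Fin k → ℕ} {X : (Fin k → ℂ) → CV d}
    {c : Fin k → (Fin k → ℂ) → ℂ} {ρ : ℝ} (hN : ND x₀)
    (hX : Fami x₀ k c₀ m X c ρ) (τ : Bool) (z : ℂ) (n : ℕ) (j : Fin k)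
    (hw : ∀ i < n, wr x₀ ((hF x₀)^[i] (iot τ z)) ≠ 0)
    (h0 : cr ((hF x₀)^[n] (iot τ z)) (c₀ j, 1) = 0) :
    ∃ q : (Fin k → ℂ) → ℂ, ∃ r > (0 : ℝ), r ≤ ρ ∧ ∃ L : ℝ, IsT q r L ∧ q 0 = z ∧
      ∀ s ∈ ball (0 : Fin k → ℂ) r, cr ((hF (X s))^[n] (iot τ (q s))) (c j s, 1) = 0 := by
  classical
  set Φ : (Fin k → ℂ) × ℂ → ℂ := fun p => cr ((hF (X p.1))^[n] (iot τ p.2)) (c j p.1, 1) with hΦ
  -- regularity
  have hXc : ContDiffAt ℂ 1 X 0 :=
    (Helper540.contDiffOn_of_differentiableOn isOpen_ball hX.dif 1).contDiffAt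
      (isOpen_ball.mem_nhds (mem_ball_self hX.ρ0))
  have hcc : ContDiffAt ℂ 1 (c j) 0 :=
    (Helper540.contDiffOn_of_differentiableOn isOpen_ball (hX.cdf j) 1).contDiffAt
      (isOpen_ball.mem_nhds (mem_ball_self hX.ρ0))
  have hio : ContDiff ℂ 1 (iot τ) := by
    cases τ with
    | true =>
      have e : iot true = fun z : ℂ => (z, (1 : ℂ)) := by funext z; simp [iot]
      rw [e]; exact contDiff_id.prodMk contDiff_const
    | false =>
      have e : iot false = fun z : ℂ => ((1 : ℂ), z) := by funext z; simp [iot]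
      rw [e]; exact contDiff_const.prodMk contDiff_id
  have hX1 : ContDiffAt ℂ 1 (fun p : (Fin k → ℂ) × ℂ => X p.1) (0, z) :=
    ContDiffAt.comp (0, z) (f := fun p : (Fin k → ℂ) × ℂ => p.1) (g := X) hXc contDiffAt_fst
  have hc1 : ContDiffAt ℂ 1 (fun p : (Fin k → ℂ) × ℂ => c j p.1) (0, z) :=
    ContDiffAt.comp (0, z) (f := fun p : (Fin k → ℂ) × ℂ => p.1) (g := c j) hcc contDiffAt_fst
  have hi1 : ContDiffAt ℂ 1 (fun p : (Fin k → ℂ) × ℂ => iot τ p.2) (0, z) :=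
    (hio.comp contDiff_snd).contDiffAt
  have hF1 : ContDiffAt ℂ 1 (fun p : (Fin k → ℂ) × ℂ => (hF (X p.1))^[n] (iot τ p.2)) (0, z) :=
    ContDiffAt.comp (0, z) (f := fun p : (Fin k → ℂ) × ℂ => (X p.1, iot τ p.2))
      (g := fun q : CV d × (ℂ × ℂ) => (hF q.1)^[n] q.2)
      (hF_iter_contDiff d n 1).contDiffAt (hX1.prodMk hi1)
  have hΦc : ContDiffAt ℂ 1 Φ (0, z) := by
    have h : Φ = fun p => ((hF (X p.1))^[n] (iot τ p.2)).1 * 1 -
        ((hF (X p.1))^[n] (iot τ p.2)).2 * c j p.1 := by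
      funext p; simp only [hΦ, cr]
    rw [h]
    exact (hF1.fst.mul contDiffAt_const).sub (hF1.snd.mul hc1)
  have hs := hΦc.hasStrictFDerivAt (by norm_num)
  -- the derivative with respect to the second variable
  obtain ⟨D, hD, hDe⟩ := iter_deriv x₀ (iot_hasDerivAt τ z) n
  have hy : (hF x₀)^[n] (iot τ z) ≠ 0 := hN.iter_ne n (iot_ne τ z)
  have hcr : cr D (c₀ j, 1) ≠ 0 := by
    obtain ⟨a, ha, hae⟩ := (cr_eq_zero_iff hy (q := (c₀ j, 1))
      (by simp [Prod.ext_iff])).mp h0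
    intro hz
    rw [hae, cr_smul_right, hz, mul_zero, mul_zero] at hDe
    have : (∏ j ∈ Finset.range n, wr x₀ ((hF x₀)^[j] (iot τ z))) *
        cr (if τ then ((1 : ℂ), (0 : ℂ)) else (0, 1)) (iot τ z) ≠ 0 :=
      mul_ne_zero (Finset.prod_ne_zero_iff.mpr fun i hi => hw i (Finset.mem_range.mp hi))
        (cr_iot τ z)
    exact this hDe.symm
  have hpd : HasDerivAt (fun w => Φ (0, w)) (cr D (c₀ j, 1)) z := by
    have h1 := fst_hasDerivAt hD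
    have h2 := snd_hasDerivAt hD
    have h3 := (h1.mul_const (1 : ℂ)).fun_sub (h2.mul_const (c₀ j))
    have h4 : (fun w => Φ (0, w)) = fun w => ((hF x₀)^[n] (iot τ w)).1 * 1 -
        ((hF x₀)^[n] (iot τ w)).2 * c₀ j := by
      funext w; simp only [hΦ, cr, hX.at0, hX.c0]
    rw [h4]
    exact h3
  have hpf : (fderiv ℂ Φ (0, z)) (0, 1) = cr D (c₀ j, 1) := by
    have h1 : HasDerivAt (fun w : ℂ => ((0 : Fin k → ℂ), w)) (0, 1) z :=
      (hasDerivAt_const z (0 : Fin k → ℂ)).prodMk (hasDerivAt_id z)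
    have h2 := hs.hasFDerivAt.comp_hasDerivAt z h1
    exact h2.unique hpd
  have hinv : (fderiv ℂ Φ (0, z) ∘L .inr ℂ (Fin k → ℂ) ℂ).IsInvertible := by
    refine ⟨ContinuousLinearEquiv.unitsEquivAut ℂ (Units.mk0 _ hcr), ?_⟩
    apply ContinuousLinearMap.ext_ring
    simp [hpf]
  set q := hs.implicitFunctionOfProdDomain hinv with hq
  have hqs := hs.hasStrictFDerivAt_implicitFunctionOfProdDomain hinv
  have hqe := hs.eventually_apply_implicitFunctionOfProdDomain hinv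
  have hq0 : q 0 = z := by
    have := (hs.eventually_apply_eq_iff_implicitFunctionOfProdDomain hinv).self_of_nhds.mp rfl
    exact this
  have hΦ0 : Φ (0, z) = 0 := by simp only [hΦ, hX.at0, hX.c0]; exact h0
  obtain ⟨K, s, hs0, hL⟩ := hqs.exists_lipschitzOnWith
  obtain ⟨r, hr, hrb⟩ := Metric.eventually_nhds_iff_ball.mp
    (hqe.and (Filter.eventually_mem_set.mpr hs0))
  refine ⟨q, min r ρ, lt_min hr hX.ρ0, min_le_right _ _, K, ?_, hq0, ?_⟩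
  · intro a ha b hb
    have ha' : a ∈ s := (hrb a (ball_subset_ball (min_le_left _ _) ha)).2
    have hb' : b ∈ s := (hrb b (ball_subset_ball (min_le_left _ _) hb)).2
    have := hL.dist_le_mul a ha' b hb'
    rwa [dist_eq_norm, dist_eq_norm] at this
  · intro a ha
    have := (hrb a (ball_subset_ball (min_le_left _ _) ha)).1
    rw [hΦ0] at this
    exact this

/-! ### Points near a given one whose orbits hit a critical point -/

theorem cho_iot {τ : Bool} {z : ℂ} (hz : ‖z‖ ≤ 1) {δ : ℝ} (hδ : 0 < δ) (hδ4 : δ ≤ 1 / 4)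
    {p : ℂ × ℂ} (hp : p ≠ 0) (h : cho (iot τ z) p < δ) :
    ∃ b z' : ℂ, b ≠ 0 ∧ p = b • iot τ z' ∧ ‖z' - z‖ ≤ 8 * δ := by
  -- both cases at once
  have key : ∀ a b : ℂ, ‖z * b - a‖ < 2 * δ * (‖a‖ + ‖b‖) → b ≠ 0 ∧ ‖a / b - z‖ ≤ 8 * δ := by
    intro a b hab
    have h1 : ‖a‖ ≤ ‖b‖ + ‖z * b - a‖ := by
      calc ‖a‖ = ‖z * b - (z * b - a)‖ := by congr 1; ring
        _ ≤ ‖z * b‖ + ‖z * b - a‖ := norm_sub_le _ _
        _ ≤ ‖b‖ + ‖z * b - a‖ := by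
            rw [norm_mul]
            nlinarith [norm_nonneg b]
    have h2 : ‖z * b - a‖ ≤ 8 * δ * ‖b‖ := by nlinarith [norm_nonneg (z * b - a), norm_nonneg b]
    have hb : b ≠ 0 := by
      rintro rfl
      rw [norm_zero, mul_zero, mul_zero, zero_sub, norm_neg] at h2
      rw [norm_zero, mul_zero, zero_sub, norm_neg, add_zero] at hab
      nlinarith [norm_nonneg a]
    refine ⟨hb, ?_⟩
    have hb' : 0 < ‖b‖ := norm_pos_iff.mpr hb
    have h3 : a / b - z = (a - z * b) / b := by field_simp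
    rw [h3, norm_div, div_le_iff₀ hb', norm_sub_rev]
    exact h2
  have hN : 0 < N2 p := by
    unfold N2
    by_cases h1 : p.1 = 0
    · have h2 : p.2 ≠ 0 := fun h2 => hp (Prod.ext h1 h2)
      have := norm_pos_iff.mpr h2
      positivity
    · have := norm_pos_iff.mpr h1
      positivity
  have hI : 1 ≤ N2 (iot τ z) ∧ N2 (iot τ z) ≤ 2 := by
    have hz2 : ‖z‖ ^ 2 ≤ 1 := by nlinarith [norm_nonneg z]
    unfold N2
    cases τ
    · simp only [iot, Bool.false_eq_true, if_false, norm_one, one_pow]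
      constructor <;> nlinarith [sq_nonneg ‖z‖]
    · simp only [iot, if_true, norm_one, one_pow]
      constructor <;> nlinarith [sq_nonneg ‖z‖]
  have hS : Real.sqrt (N2 (iot τ z) * N2 p) ≤ 2 * (‖p.1‖ + ‖p.2‖) := by
    apply Real.sqrt_le_iff.mpr
    refine ⟨by positivity, ?_⟩
    have h1 : N2 p ≤ (‖p.1‖ + ‖p.2‖) ^ 2 := by
      unfold N2
      nlinarith [mul_nonneg (norm_nonneg p.1) (norm_nonneg p.2)]
    nlinarith [hN, hI.1, hI.2, sq_nonneg (‖p.1‖ + ‖p.2‖)]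
  have hSp : 0 < Real.sqrt (N2 (iot τ z) * N2 p) :=
    Real.sqrt_pos.mpr (mul_pos (by linarith [hI.1]) hN)
  have hc : ‖cr (iot τ z) p‖ < 2 * δ * (‖p.1‖ + ‖p.2‖) := by
    unfold cho at h
    rw [div_lt_iff₀ hSp] at h
    calc ‖cr (iot τ z) p‖ < δ * Real.sqrt (N2 (iot τ z) * N2 p) := h
      _ ≤ δ * (2 * (‖p.1‖ + ‖p.2‖)) := mul_le_mul_of_nonneg_left hS hδ.le
      _ = _ := by ring
  cases τ with
  | true =>
    have h1 : cr (iot true z) p = z * p.2 - p.1 := by simp [cr, iot]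
    rw [h1] at hc
    obtain ⟨hb, he⟩ := key p.1 p.2 hc
    refine ⟨p.2, p.1 / p.2, hb, ?_, he⟩
    apply Prod.ext
    · simp only [iot, if_true, Prod.smul_fst, smul_eq_mul]
      field_simp
    · simp [iot]
  | false =>
    have h1 : cr (iot false z) p = -(z * p.1 - p.2) := by simp [cr, iot]
    rw [h1, norm_neg, add_comm] at hc
    obtain ⟨hb, he⟩ := key p.2 p.1 hc
    refine ⟨p.1, p.2 / p.1, hb, ?_, he⟩
    apply Prod.ext
    · simp [iot]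
    · simp only [iot, Bool.false_eq_true, if_false, Prod.smul_snd, smul_eq_mul]
      field_simp

theorem near {d k : ℕ} {x₀ : CV d} {c₀ : Fin k → ℂ} {m : Fin k → ℕ} (hN : ND x₀)
    (hD : DCR x₀) (hi : wr x₀ (1, 0) ≠ 0) (hf : Fac x₀ k c₀ m) (τ : Bool) {z : ℂ} (hz : ‖z‖ ≤ 1)
    {ε : ℝ} (hε : 0 < ε) :
    ∃ z' : ℂ, ‖z' - z‖ ≤ ε ∧ ∃ (n : ℕ) (j : Fin k),
      (∀ i < n, wr x₀ ((hF x₀)^[i] (iot τ z')) ≠ 0) ∧
        cr ((hF x₀)^[n] (iot τ z')) (c₀ j, 1) = 0 := by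
  classical
  set δ : ℝ := min (1 / 4) (ε / 8) with hδ
  have hδ0 : 0 < δ := lt_min (by norm_num) (by positivity)
  obtain ⟨p, hp, hcho, N, hNp⟩ := hD δ hδ0 (iot τ z) (iot_ne τ z)
  obtain ⟨b, z', hb, hpz, hzz⟩ := cho_iot hz hδ0 (min_le_left _ _) hp hcho
  have h8 : 8 * δ ≤ ε := by have := min_le_right (1 / 4) (ε / 8); rw [← hδ] at this; linarith
  refine ⟨z', hzz.trans h8, ?_⟩
  have hex : ∃ n : ℕ, wr x₀ ((hF x₀)^[n] (iot τ z')) = 0 := by
    refine ⟨N, ?_⟩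
    rw [hpz, hF_iter_smul, wr_smul] at hNp
    exact (mul_eq_zero.mp hNp).resolve_left (pow_ne_zero _ (pow_ne_zero _ (pow_ne_zero _ hb)))
  have hmin := Nat.find_spec hex
  set n := Nat.find hex with hn
  set y := (hF x₀)^[n] (iot τ z') with hy
  have hy0 : y ≠ 0 := hN.iter_ne n (iot_ne τ z')
  have hy2 : y.2 ≠ 0 := by
    intro h2
    have h1 : y.1 ≠ 0 := fun h1 => hy0 (Prod.ext h1 h2)
    have h3 : y = y.1 • ((1 : ℂ), (0 : ℂ)) := by
      apply Prod.ext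
      · simp
      · simp [h2]
    rw [h3, wr_smul] at hmin
    exact (mul_ne_zero (pow_ne_zero _ (pow_ne_zero _ h1)) hi) hmin
  have h3 : y = y.2 • (y.1 / y.2, (1 : ℂ)) := by
    apply Prod.ext
    · simp only [Prod.smul_fst, smul_eq_mul]; field_simp
    · simp
  have h4 : wr x₀ (y.1 / y.2, 1) = 0 := by
    rw [h3, wr_smul] at hmin
    exact (mul_eq_zero.mp hmin).resolve_left (pow_ne_zero _ (pow_ne_zero _ hy2))
  rw [hf.fac, mul_eq_zero] at h4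
  have h5 := h4.resolve_left hi
  obtain ⟨j, -, hj⟩ := Finset.prod_eq_zero_iff.mp h5
  have hj' : y.1 / y.2 = c₀ j := by
    exact sub_eq_zero.mp (eq_zero_of_pow_eq_zero hj)
  refine ⟨n, j, fun i hin => Nat.find_min hex hin, ?_⟩
  rw [← hy, h3, hj', cr_smul_left, cr_self, mul_zero]

/-! ### The statement -/

theorem IsT_mono {k : ℕ} {q : (Fin k → ℂ) → ℂ} {r r' L L' : ℝ} (h : IsT q r L) (hr : r' ≤ r)
    (hL : L ≤ L') : IsT q r' L' := fun s hs s' hs' =>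
  (h s (ball_subset_ball hr hs) s' (ball_subset_ball hr hs')).trans
    (mul_le_mul_of_nonneg_right hL (norm_nonneg _))

theorem t_TG2 : S_TG2 := by
  intro d k x₀ c₀ m X c ρ hd hN hD hi hf hX ε hε
  -- for one chart
  have one : ∀ τ : Bool, ∃ ρ₁ > (0 : ℝ), ρ₁ ≤ ρ ∧ ∃ L : ℝ, ∀ z ∈ closedBall (0 : ℂ) 1,
      ∃ q : (Fin k → ℂ) → ℂ, IsT q ρ₁ L ∧ ‖q 0 - z‖ ≤ ε ∧
        ∃ (n : ℕ) (j : Fin k), ∀ s ∈ ball (0 : Fin k → ℂ) ρ₁,
          cr ((hF (X s))^[n] (iot τ (q s))) (c j s, 1) = 0 := by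
    intro τ
    refine (isCompact_closedBall (0 : ℂ) 1).induction_on
      (p := fun K => ∃ ρ₁ > (0 : ℝ), ρ₁ ≤ ρ ∧ ∃ L : ℝ, ∀ z ∈ K,
        ∃ q : (Fin k → ℂ) → ℂ, IsT q ρ₁ L ∧ ‖q 0 - z‖ ≤ ε ∧
          ∃ (n : ℕ) (j : Fin k), ∀ s ∈ ball (0 : Fin k → ℂ) ρ₁,
            cr ((hF (X s))^[n] (iot τ (q s))) (c j s, 1) = 0) ?_ ?_ ?_ ?_
    · exact ⟨ρ, hX.ρ0, le_rfl, 0, fun z hz => absurd hz (notMem_empty z)⟩
    · rintro s t hst ⟨ρ₁, h1, h2, L, h3⟩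
      exact ⟨ρ₁, h1, h2, L, fun z hz => h3 z (hst hz)⟩
    · rintro s t ⟨ρ₁, h1, h2, L, h3⟩ ⟨ρ₂, g1, g2, L₂, g3⟩
      refine ⟨min ρ₁ ρ₂, lt_min h1 g1, (min_le_left _ _).trans h2, max L L₂, fun z hz => ?_⟩
      rcases hz with hz | hz
      · obtain ⟨q, hq, hqz, n, j, hs⟩ := h3 z hz
        exact ⟨q, IsT_mono hq (min_le_left _ _) (le_max_left _ _), hqz, n, j,
          fun a ha => hs a (ball_subset_ball (min_le_left _ _) ha)⟩
      · obtain ⟨q, hq, hqz, n, j, hs⟩ := g3 z hz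
        exact ⟨q, IsT_mono hq (min_le_right _ _) (le_max_right _ _), hqz, n, j,
          fun a ha => hs a (ball_subset_ball (min_le_right _ _) ha)⟩
    · intro z hz
      have hz1 : ‖z‖ ≤ 1 := by simpa using hz
      obtain ⟨z', hzz, n, j, hw, hc⟩ := near hN hD hi hf τ hz1 (half_pos hε)
      obtain ⟨q, r, hr, hrρ, L, hq, hq0, hs⟩ := ift hN hX τ z' n j hw hc
      refine ⟨ball z (ε / 2), mem_nhdsWithin_of_mem_nhds (ball_mem_nhds z (half_pos hε)),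
        r, hr, hrρ, L, fun a ha => ⟨q, hq, ?_, n, j, hs⟩⟩
      rw [hq0]
      rw [mem_ball, dist_eq_norm] at ha
      calc ‖z' - a‖ = ‖(z' - z) - (a - z)‖ := by congr 1; ring
        _ ≤ ‖z' - z‖ + ‖a - z‖ := norm_sub_le _ _
        _ ≤ ε := by linarith
  obtain ⟨ρ₁, h1, h2, L, h3⟩ := one true
  obtain ⟨ρ₂, g1, g2, L₂, g3⟩ := one false
  refine ⟨min ρ₁ ρ₂, lt_min h1 g1, (min_le_left _ _).trans h2, max L L₂, fun τ z hz => ?_⟩
  have hz' : z ∈ closedBall (0 : ℂ) 1 := by simpa using hz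
  cases τ with
  | true =>
    obtain ⟨q, hq, hqz, n, j, hs⟩ := h3 z hz'
    exact ⟨q, IsT_mono hq (min_le_left _ _) (le_max_left _ _), hqz, n, j,
      fun a ha => hs a (ball_subset_ball (min_le_left _ _) ha)⟩
  | false =>
    obtain ⟨q, hq, hqz, n, j, hs⟩ := g3 z hz'
    exact ⟨q, IsT_mono hq (min_le_right _ _) (le_max_right _ _), hqz, n, j,
      fun a ha => hs a (ball_subset_ball (min_le_right _ _) ha)⟩

end Pool.Agent.H274.HY211
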